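import Pool.Agent.H.MP_178ab7_mp.Defs

set_option autoImplicit false
set_option maxHeartbeats 400000

namespace Pool.Agent.H.MP_178ab7_mp

open MeasureTheory Set Filter Topology Metric
open scoped ENNReal NNReal ContDiff Convolution

lemma cs {X : Type*} [MeasurableSpace X] (μ : Measure X) {f g : X → ℝ≥0∞} (hf : AEMeasurable f μ)
    (hg : AEMeasurable g μ) :
    (∫⁻ y, g y * f y ∂μ) ^ 2 ≤ (∫⁻ y, g y * f y ^ 2 ∂μ) * ∫⁻ y, g y ∂μ := by
  have h := ENNReal.lintegral_mul_norm_pow_le (μ := μ) (f := fun y => g y * f y ^ 2) (g := g)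
    (by fun_prop) hg (p := 1 / 2) (q := 1 / 2) (by norm_num) (by norm_num) (by norm_num)
  have h2 : ∀ y, (g y * f y ^ 2) ^ (1 / 2 : ℝ) * g y ^ (1 / 2 : ℝ) = g y * f y := by
    intro y
    rw [← ENNReal.mul_rpow_of_nonneg _ _ (by norm_num),
      show g y * f y ^ 2 * g y = (g y * f y) ^ 2 by ring, ← ENNReal.rpow_natCast,
      ← ENNReal.rpow_mul]
    norm_num
  simp only [h2] at h
  refine (pow_le_pow_left' h 2).trans (le_of_eq ?_)
  rw [← ENNReal.mul_rpow_of_nonneg _ _ (by norm_num), ← ENNReal.rpow_natCast, ← ENNReal.rpow_mul]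
  norm_num

lemma jen {a b : ℝ} {f : ℝ → ℝ≥0∞} (hf : AEMeasurable f (volume.restrict (Ioc a b))) :
    (∫⁻ y in Ioc a b, f y) ^ 2 ≤ ENNReal.ofReal (b - a) * ∫⁻ y in Ioc a b, f y ^ 2 := by
  simpa [mul_comm] using cs _ hf (g := fun _ => 1) aemeasurable_const

lemma young {η : ℂ → ℝ} (hη : Continuous η) (h1 : ∫⁻ x, ENNReal.ofReal (η x) = 1)
    {f : ℂ → ℝ≥0∞} (hf : Measurable f) :
    ∫⁻ x, (∫⁻ y, ENNReal.ofReal (η (x - y)) * f y) ^ 2 ≤ ∫⁻ y, f y ^ 2 := by
  have hρ : Measurable fun q : ℂ × ℂ => ENNReal.ofReal (η (q.1 - q.2)) :=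
    (Continuous.measurable (by fun_prop)).ennreal_ofReal
  have h2 : ∀ x, (∫⁻ y, ENNReal.ofReal (η (x - y)) * f y) ^ 2 ≤
      ∫⁻ y, ENNReal.ofReal (η (x - y)) * f y ^ 2 := by
    intro x
    have := cs volume hf.aemeasurable (g := fun y => ENNReal.ofReal (η (x - y)))
      (hρ.comp (measurable_const.prodMk measurable_id)).aemeasurable
    rwa [lintegral_sub_left_eq_self (fun y => ENNReal.ofReal (η y)), h1, mul_one] at this
  refine (lintegral_mono h2).trans (le_of_eq ?_)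
  rw [lintegral_lintegral_swap (Measurable.aemeasurable (by
    exact hρ.mul ((hf.comp measurable_snd).pow_const 2)))]
  congr 1
  ext y
  rw [lintegral_mul_const _ (Continuous.measurable (by fun_prop)).ennreal_ofReal,
    lintegral_sub_right_eq_self (fun x => ENNReal.ofReal (η x)), h1, one_mul]

lemma sq2 (a b : ℝ≥0∞) : (a + b) ^ 2 ≤ 2 * a ^ 2 + 2 * b ^ 2 := by
  rcases eq_or_ne a ⊤ with rfl | ha
  · simp
  rcases eq_or_ne b ⊤ with rfl | hb
  · simp
  lift a to ℝ≥0 using ha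
  lift b to ℝ≥0 using hb
  norm_cast
  rw [← NNReal.coe_le_coe]
  push_cast
  nlinarith [sq_nonneg ((a : ℝ) - b)]

lemma opn (L : ℂ →L[ℝ] ℂ) : ‖L‖ ≤ ‖L 1‖ + ‖L Complex.I‖ := by
  refine L.opNorm_le_bound (by positivity) fun z => ?_
  have : z = z.re • (1 : ℂ) + z.im • Complex.I := by simp
  conv_lhs => rw [this, map_add, map_smul, map_smul]
  refine (norm_add_le _ _).trans ?_
  rw [norm_smul, norm_smul, add_mul, mul_comm _ ‖z‖, mul_comm _ ‖z‖]
  gcongr
  exacts [Complex.abs_re_le_norm z, Complex.abs_im_le_norm z]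

lemma approx {O : Set ℂ} (hO : IsOpen O) {u g k : ℂ → ℂ} (H : H1 O u g k) :
    ∃ (w : ℕ → ℂ → ℂ) (h : ℕ → ℂ → ℝ≥0∞), (∀ n, ContDiff ℝ 1 (w n)) ∧
    (∀ᵐ x, Tendsto (fun n => w n x) atTop (𝓝 (O.indicator u x))) ∧ (∀ n, Measurable (h n)) ∧
    (∀ n, ∫⁻ x, h n x ^ 2 ≤ 2 * ∫⁻ x in O, (‖g x‖ₑ ^ 2 + ‖k x‖ₑ ^ 2)) ∧
    ∀ (n : ℕ) x, closedBall x (1 / ((n : ℝ) + 1)) ⊆ O → ‖fderiv ℝ (w n) x‖ₑ ≤ h n x := by
  obtain ⟨-, mg, mk, lu, -, -, wg, wk⟩ := H
  have mO := hO.measurableSet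
  have hul : LocallyIntegrable (O.indicator u) volume :=
    ((memLp_indicator_iff_restrict mO).2 lu).locallyIntegrable (by norm_num)
  let φ : ℕ → ContDiffBump (0 : ℂ) := fun n =>
    ⟨1 / ((n : ℝ) + 1) / 2, 1 / ((n : ℝ) + 1), by positivity, by
      have : 0 < 1 / ((n : ℝ) + 1) := by positivity
      linarith⟩
  have hlim := ContDiffBump.ae_convolution_tendsto_right_of_locallyIntegrable (μ := volume)
    (φ := φ) (l := atTop) (K := 2) tendsto_one_div_add_atTop_nhds_zero_nat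
    (Eventually.of_forall fun n => le_of_eq (by simp only [φ]; ring)) hul
  let G : ℂ → ℝ≥0∞ := O.indicator fun y => ‖g y‖ₑ + ‖k y‖ₑ
  have mG : Measurable G := (mg.enorm.add mk.enorm).indicator mO
  have hG : ∫⁻ y, G y ^ 2 ≤ 2 * ∫⁻ x in O, (‖g x‖ₑ ^ 2 + ‖k x‖ₑ ^ 2) := by
    rw [← lintegral_const_mul _ (by fun_prop), ← lintegral_indicator mO]
    refine lintegral_mono fun y => ?_
    by_cases c : y ∈ O
    · simp only [G, indicator_of_mem c, mul_add]; exact sq2 _ _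
    · simp [G, c]
  have key : ∀ (η : ℂ → ℝ) (r : ℝ), ContDiff ℝ ∞ η → tsupport η = closedBall 0 r → (∀ x, 0 ≤ η x) →
      ∫ x, η x = 1 → ∀ w, w = η ⋆[ContinuousLinearMap.lsmul ℝ ℝ, volume] (O.indicator u) →
      ContDiff ℝ 1 w ∧ Measurable (fun x => ∫⁻ y, ENNReal.ofReal (η (x - y)) * G y) ∧
      ∫⁻ x, (∫⁻ y, ENNReal.ofReal (η (x - y)) * G y) ^ 2 ≤ ∫⁻ y, G y ^ 2 ∧
      ∀ x, closedBall x r ⊆ O → ‖fderiv ℝ w x‖ₑ ≤ ∫⁻ y, ENNReal.ofReal (η (x - y)) * G y := by
    intro η r hηs hr hη0 hηi' w hw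
    have hηc : HasCompactSupport η := by
      rw [HasCompactSupport, hr]; exact isCompact_closedBall _ _
    have hη1 : ContDiff ℝ 1 η := hηs.of_le (by exact_mod_cast le_top)
    have hc := hη1.continuous
    have hηi : ∫⁻ x, ENNReal.ofReal (η x) = 1 := by
      rw [← ofReal_integral_eq_lintegral_ofReal (hc.integrable_of_hasCompactSupport hηc)
        (Eventually.of_forall hη0), hηi', ENNReal.ofReal_one]
    rw [← convolution_flip] at hw
    have hw1 : ContDiff ℝ 1 w := hw ▸ hηc.contDiff_convolution_right _ hul hη1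
    refine ⟨hw1, Measurable.lintegral_prod_right (f := fun x y => ENNReal.ofReal (η (x - y)) * G y)
      ((Continuous.measurable (by fun_prop)).ennreal_ofReal.mul (mG.comp measurable_snd)),
      young hc hηi mG, fun x hx => ?_⟩
    have hd : ∀ z q, WD O u q z → ‖fderiv ℝ w x z‖ₑ ≤
        ∫⁻ y in O, ENNReal.ofReal (η (x - y)) * ‖q y‖ₑ := by
      intro z q hq
      rw [hw, (hηc.hasFDerivAt_convolution_right _ hul hη1 x).fderiv,
        convolution_precompR_apply _ hul (hηc.fderiv ℝ) (hη1.continuous_fderiv (by simp)),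
        convolution_def]
      have h1 := hq (fun y => η (x - y)) (hηs.comp (contDiff_const.sub contDiff_id))
        (hηc.comp_homeomorph (Homeomorph.subLeft x)) (by
          refine (closure_minimal (fun y hy => ?_) isClosed_closedBall).trans hx
          have := subset_tsupport η hy
          rwa [hr, mem_closedBall_zero_iff, ← mem_closedBall_iff_norm'] at this)
      have h2 : ∀ y, fderiv ℝ (fun y => η (x - y)) y z = -fderiv ℝ η (x - y) z := by
        intro y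
        have := ((hη1.differentiable (by simp)) (x - y)).hasFDerivAt.comp y
          ((hasFDerivAt_id y).const_sub x)
        rw [show (fun y => η (x - y)) = η ∘ HSub.hSub x from rfl, this.fderiv]
        simp
      simp only [h2, neg_smul, integral_neg, neg_inj] at h1
      have h3 : ∫ y, ((ContinuousLinearMap.lsmul ℝ ℝ).flip (O.indicator u y))
          (fderiv ℝ η (x - y) z) = ∫ y in O, η (x - y) • q y := by
        rw [← h1, ← integral_indicator mO]
        congr 1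
        ext y
        by_cases c : y ∈ O <;> simp [c]
      rw [h3]
      refine (enorm_integral_le_lintegral_enorm _).trans (le_of_eq ?_)
      congr 1
      ext y
      rw [enorm_smul, Real.enorm_eq_ofReal (hη0 _)]
    have h4 : ‖fderiv ℝ w x‖ₑ ≤ ‖fderiv ℝ w x 1‖ₑ + ‖fderiv ℝ w x Complex.I‖ₑ := by
      simp only [← ofReal_norm]
      rw [← ENNReal.ofReal_add (norm_nonneg _) (norm_nonneg _)]
      exact ENNReal.ofReal_le_ofReal (opn _)
    refine h4.trans ((add_le_add (hd _ _ wg) (hd _ _ wk)).trans (le_of_eq ?_))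
    rw [← lintegral_add_left (by fun_prop), ← lintegral_indicator mO]
    congr 1
    ext y
    by_cases c : y ∈ O <;> simp [G, c, mul_add]
  have q := fun n => key ((φ n).normed volume) _ (φ n).contDiff_normed (φ n).tsupport_normed_eq
    (φ n).nonneg_normed (φ n).integral_normed _ rfl
  exact ⟨_, _, fun n => (q n).1, hlim, fun n => (q n).2.1, fun n => (q n).2.2.1.trans hG,
    fun n => (q n).2.2.2⟩

def Rc (η : ℝ) : Set (ℝ × ℝ) := Icc (-η) (1 + η) ×ˢ Icc (-η) η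

lemma nor_cd {γ : ℝ → ℂ} (hγ : ContDiff ℝ 2 γ) : ContDiff ℝ 1 (nor γ) := by
  have h1 : ContDiff ℝ 1 γ := hγ.of_le (by norm_num)
  have h2 : ContDiff ℝ 1 (deriv γ) := by simpa using hγ.iterate_deriv' 1 1
  exact (h1.comp contDiff_fst).add (((Complex.ofRealCLM.contDiff.comp contDiff_snd).mul
    contDiff_const).mul (h2.comp contDiff_fst))

lemma chart {γ : ℝ → ℂ} (hγ : ContDiff ℝ 2 γ) (hi : InjOn γ (Icc 0 1))
    (hd : ∀ s ∈ Icc (0 : ℝ) 1, deriv γ s ≠ 0) : ∃ η : ℝ, 0 < η ∧ η ≤ 1 ∧ ∃ C M : ℝ≥0,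
    (∀ h : ℂ → ℝ≥0∞, ∫⁻ p in Rc η, h (nor γ p) ≤ C * ∫⁻ x, h x) ∧
    (∀ p ∈ Rc η, nor γ p ∈ γ '' Icc 0 1 → p.2 = 0 ∧ 0 ≤ p.1) ∧
    ∀ p ∈ Rc η, ‖fderiv ℝ (nor γ) p‖ₑ ≤ M := by
  let e := Complex.equivRealProdCLM
  let Φ : ℂ → ℂ := nor γ ∘ e
  have hΦ : ContDiff ℝ 1 Φ := (nor_cd hγ).comp e.contDiff
  have cd : Continuous fun z => (fderiv ℝ Φ z).det :=
    ContinuousLinearMap.continuous_det.comp (hΦ.continuous_fderiv one_ne_zero)
  let K : Set ℂ := (fun s : ℝ => (s : ℂ)) '' Icc 0 1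
  have hK : IsCompact K := isCompact_Icc.image Complex.continuous_ofReal
  have e0 : ∀ s : ℝ, Φ s = γ s := fun s => by simp [Φ, e, nor]
  have d0 : ∀ z ∈ K, (fderiv ℝ Φ z).det ≠ 0 := by
    rintro _ ⟨s, hs, rfl⟩
    have a1 : HasFDerivAt γ _ (s : ℂ).re :=
      ((hγ.differentiable (by norm_num)) _).hasDerivAt.hasFDerivAt
    have a2 : HasFDerivAt (deriv γ) _ (s : ℂ).re := ((show ContDiff ℝ 1 (deriv γ) by
      simpa using hγ.iterate_deriv' 1 1).differentiable one_ne_zero _).hasFDerivAt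
    have a3 := (a1.comp (s : ℂ) Complex.reCLM.hasFDerivAt).add
      ((((Complex.ofRealCLM.comp Complex.imCLM).hasFDerivAt (x := (s : ℂ))).mul_const
        Complex.I).mul (a2.comp (s : ℂ) Complex.reCLM.hasFDerivAt))
    rw [show fderiv ℝ Φ s = _ from a3.fderiv]
    refine fun c => LinearMap.det_eq_zero_iff_ker_ne_bot.1 c (LinearMap.ker_eq_bot'.2 fun z hz => ?_)
    simp at hz
    refine (mul_eq_zero.1 (show z * deriv γ s = 0 from ?_)).resolve_right (hd s hs)
    rw [← hz]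
    conv_lhs => rw [← Complex.re_add_im z]
    ring
  obtain ⟨t, ht, hit⟩ := InjOn.exists_mem_nhdsSet (f := Φ) (s := K) (by
    rintro _ ⟨a, ha, rfl⟩ _ ⟨b, hb, rfl⟩ h
    rw [e0, e0] at h
    rw [hi ha hb h]) hK (fun z _ => hΦ.continuous.continuousAt) fun z hz => by
      have : HasStrictFDerivAt Φ
          ((fderiv ℝ Φ z).toContinuousLinearEquivOfDetNeZero (d0 z hz) : ℂ →L[ℝ] ℂ) z :=
        hΦ.contDiffAt.hasStrictFDerivAt one_ne_zero
      exact ⟨_, this.eventually_left_inverse, fun a ha b hb h =>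
        (Eq.symm ha).trans ((congrArg _ h).trans hb)⟩
  obtain ⟨V, Vo, KV, Vt⟩ := mem_nhdsSet_iff_exists.1 ht
  obtain ⟨δ, δ0, hδ⟩ := hK.exists_cthickening_subset_open
    (Vo.inter (isOpen_ne_fun cd continuous_const)) (subset_inter KV d0)
  set η := min (δ / 2) 1
  have η0 : 0 < η := by positivity
  have η1 : η ≤ δ / 2 := min_le_left _ _
  have cR : IsCompact (Rc η) := isCompact_Icc.prod isCompact_Icc
  have cR' : IsCompact (e ⁻¹' Rc η) := e.toHomeomorph.isCompact_preimage.2 cR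
  have hR : ∀ z ∈ e ⁻¹' Rc η, z ∈ V ∧ (fderiv ℝ Φ z).det ≠ 0 := by
    rintro z ⟨⟨a1, a2⟩, a3, a4⟩
    refine hδ (mem_cthickening_of_dist_le z ((max 0 (min z.re 1) : ℝ) : ℂ) δ K
      ⟨_, ⟨le_max_left _ _, max_le zero_le_one (min_le_right _ _)⟩, rfl⟩ ?_)
    simp only [e, Complex.equivRealProdCLM_apply] at a1 a2 a3 a4
    rw [dist_eq_norm]
    refine (Complex.norm_le_abs_re_add_abs_im _).trans ?_
    have b1 : |z.im| ≤ η := abs_le.2 ⟨a3, a4⟩
    have b2 : |z.re - max 0 (min z.re 1)| ≤ η := by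
      rw [abs_le, max_def, min_def]
      split_ifs <;> constructor <;> linarith
    simp only [Complex.sub_re, Complex.ofReal_re, Complex.sub_im, Complex.ofReal_im, sub_zero]
    linarith
  have iR : InjOn Φ (e ⁻¹' Rc η) := hit.mono fun z hz => Vt (hR z hz).1
  obtain ⟨C, hC⟩ := cR'.exists_bound_of_continuousOn (f := fun z => ((fderiv ℝ Φ z).det)⁻¹)
    (cd.continuousOn.inv₀ fun z hz => (hR z hz).2)
  obtain ⟨M, hM⟩ := cR.exists_bound_of_continuousOn
    ((nor_cd hγ).continuous_fderiv one_ne_zero).continuousOn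
  refine ⟨η, η0, min_le_right _ _, C.toNNReal, M.toNNReal, fun h => ?_, ?_, fun p hp => ?_⟩
  · rw [← Complex.volume_preserving_equiv_real_prod.setLIntegral_comp_preimage_emb
      Complex.measurableEquivRealProd.measurableEmbedding]
    refine le_trans ?_ (mul_le_mul_right (setLIntegral_le_lintegral (Φ '' (e ⁻¹' Rc η)) h) _)
    rw [lintegral_image_eq_lintegral_abs_det_fderiv_mul volume cR'.measurableSet
      (fun z _ => (hΦ.differentiable one_ne_zero z).hasFDerivAt.hasFDerivWithinAt) iR,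
      ← lintegral_const_mul' _ _ ENNReal.coe_ne_top]
    refine setLIntegral_mono' cR'.measurableSet fun z hz => ?_
    rw [← mul_assoc]
    refine le_mul_of_one_le_left' ?_
    have b1 := hC z hz
    have b2 := abs_pos.2 (hR z hz).2
    rw [norm_inv, Real.norm_eq_abs, inv_le_iff_one_le_mul₀ b2] at b1
    rw [show (C.toNNReal : ℝ≥0∞) = ENNReal.ofReal C from rfl, ← ENNReal.ofReal_mul' b2.le]
    exact ENNReal.one_le_ofReal.2 b1
  · rintro p hp ⟨s, hs, h⟩
    have := iR (x₁ := (s : ℂ)) (x₂ := e.symm p)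
      ⟨⟨by simp [e]; linarith [hs.1], by simp [e]; linarith [hs.2]⟩, by simp [e, η0.le]⟩
      (by simpa using hp) (by rw [e0, h]; simp [Φ])
    have := congrArg e this
    rw [e.apply_symm_apply] at this
    rw [← this]
    simpa [e] using hs.1
  · rw [← ofReal_norm]
    exact ENNReal.ofReal_le_ofReal (hM p hp)

end Pool.Agent.H.MP_178ab7_mp
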