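import Pool.Agent.H.MP_178ab7_mp.A

set_option autoImplicit false
set_option maxHeartbeats 400000

namespace Pool.Agent.H.MP_178ab7_mp

open MeasureTheory Set Filter Topology Metric
open scoped ENNReal NNReal

noncomputable def N (f g : ℝ → ℂ) : ℝ≥0∞ := ∫⁻ s in Icc (0 : ℝ) 1, ‖f s - g s‖ₑ ^ 2

abbrev Ms (f : ℝ → ℂ) : Prop := AEMeasurable f (volume.restrict (Icc (0 : ℝ) 1))

lemma N_symm (f g : ℝ → ℂ) : N f g = N g f := by simp only [N, enorm_sub_rev (f _)]

lemma N_tri {f g : ℝ → ℂ} (h : ℝ → ℂ) (hf : Ms f) (hg : Ms g) : N f h ≤ 2 * N f g + 2 * N g h := by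
  unfold N
  rw [← lintegral_const_mul' _ _ (by simp), ← lintegral_const_mul' _ _ (by simp),
    ← lintegral_add_left' (by fun_prop)]
  refine lintegral_mono fun s => le_trans (pow_le_pow_left' ?_ 2) (sq2 _ _)
  simpa using enorm_add_le (f s - g s) (g s - h s)

lemma N_fatou {f g : ℕ → ℝ → ℂ} {F G : ℝ → ℂ} (hf : ∀ n, Ms (f n)) (hg : ∀ n, Ms (g n))
    (h1 : ∀ᵐ s ∂volume.restrict (Icc (0 : ℝ) 1), Tendsto (fun n => f n s) atTop (𝓝 (F s)))
    (h2 : ∀ᵐ s ∂volume.restrict (Icc (0 : ℝ) 1), Tendsto (fun n => g n s) atTop (𝓝 (G s)))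
    {B : ℝ≥0∞} (hB : ∀ᶠ n in atTop, N (f n) (g n) ≤ B) : N F G ≤ B := by
  have : ∀ᵐ s ∂volume.restrict (Icc (0 : ℝ) 1),
      liminf (fun n => ‖f n s - g n s‖ₑ ^ 2) atTop = ‖F s - G s‖ₑ ^ 2 := by
    filter_upwards [h1, h2] with s a b
    exact (ENNReal.Tendsto.pow (a.sub b).enorm).liminf_eq
  rw [N, ← lintegral_congr_ae this]
  refine (lintegral_liminf_le' fun n => ?_).trans (liminf_le_of_frequently_le' hB.frequently)
  have := hf n
  have := hg n
  fun_prop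

lemma seg {v : ℝ × ℝ → ℂ} (hv : ContDiff ℝ 1 v) (p d : ℝ × ℝ) (hd : ‖d‖ ≤ 1) {κ : ℝ → ℝ≥0∞}
    {a b : ℝ} (hab : a ≤ b) (h : ∀ t ∈ Icc a b, ‖fderiv ℝ v (p + t • d)‖ₑ ^ 2 ≤ κ t) :
    ‖v (p + b • d) - v (p + a • d)‖ₑ ^ 2 ≤ ENNReal.ofReal (b - a) * ∫⁻ t, κ t := by
  have c := hv.continuous_fderiv one_ne_zero
  have h1 : ∀ t : ℝ, HasDerivAt (fun t : ℝ => v (p + t • d)) (fderiv ℝ v (p + t • d) d) t :=
    fun t => (hv.differentiable one_ne_zero _).hasFDerivAt.comp_hasDerivAt t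
      (by simpa using ((hasDerivAt_id t).smul_const d).const_add p)
  rw [← intervalIntegral.integral_eq_sub_of_hasDerivAt (fun t _ => h1 t)
    (Continuous.intervalIntegrable (by fun_prop) _ _), intervalIntegral.integral_of_le hab]
  refine (pow_le_pow_left' (enorm_integral_le_lintegral_enorm _) 2).trans
    ((jen (Continuous.aemeasurable (by fun_prop))).trans (mul_le_mul_right ?_ _))
  refine le_trans (setLIntegral_mono' measurableSet_Ioc fun t ht => ?_)
    (setLIntegral_le_lintegral (Ioc a b) κ)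
  refine le_trans (pow_le_pow_left' ?_ 2) (h t (Ioc_subset_Icc_self ht))
  simp only [← ofReal_norm]
  exact ENNReal.ofReal_le_ofReal (((fderiv ℝ v _).le_opNorm d).trans
    (mul_le_of_le_one_right (norm_nonneg _) hd))

lemma aff {f : ℝ → ℝ≥0∞} (hf : Measurable f) {c : ℝ} (hc : c ≠ 0) (d : ℝ) :
    ∫⁻ s in Icc (0 : ℝ) 1, f (d + c * s) ≤ ENNReal.ofReal |c⁻¹| * ∫⁻ s, f s := by
  refine (setLIntegral_le_lintegral _ _).trans (le_of_eq ?_)
  rw [← lintegral_map (f := fun x => f (d + x)) (by fun_prop) (by fun_prop),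
    Real.map_volume_mul_left hc, lintegral_smul_measure, lintegral_add_left_eq_self, smul_eq_mul]

def Ar (η t : ℝ) : Set (ℝ × ℝ) := Rc η ∩ {p | p.1 ≤ -(η / 2) ∨ t ≤ |p.2|}

section
variable {v : ℝ × ℝ → ℂ} (hv : ContDiff ℝ 1 v) {κ : ℝ × ℝ → ℝ≥0∞} (hκ : Measurable κ) {η t : ℝ}
  (h : ∀ p ∈ Ar η t, ‖fderiv ℝ v p‖ₑ ^ 2 ≤ κ p)
include hv h

lemma segV {s a b : ℝ} (hab : a ≤ b) (hs : ∀ y ∈ Icc a b, (s, y) ∈ Ar η t) :
    ‖v (s, b) - v (s, a)‖ₑ ^ 2 ≤ ENNReal.ofReal (b - a) * ∫⁻ y, κ (s, y) := by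
  simpa using seg hv (s, 0) (0, 1) (by simp) (κ := fun y => κ (s, y)) hab
    fun y hy => by simpa using h _ (hs y hy)

lemma segH {s a b : ℝ} (hab : a ≤ b) (hs : ∀ y ∈ Icc a b, (y, s) ∈ Ar η t) :
    ‖v (b, s) - v (a, s)‖ₑ ^ 2 ≤ ENNReal.ofReal (b - a) * ∫⁻ y, κ (y, s) := by
  simpa using seg hv (0, s) (1, 0) (by simp) (κ := fun y => κ (y, s)) hab
    fun y hy => by simpa using h _ (hs y hy)

include hκ

lemma NV {a b : ℝ → ℝ} {c d L : ℝ} (hc : c ≠ 0)
    (hs : ∀ s ∈ Icc (0 : ℝ) 1, a s ≤ b s ∧ b s - a s ≤ L ∧ ∀ y ∈ Icc (a s) (b s),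
      (d + c * s, y) ∈ Ar η t) :
    N (fun s => v (d + c * s, b s)) (fun s => v (d + c * s, a s)) ≤
      ENNReal.ofReal L * (ENNReal.ofReal |c⁻¹| * ∫⁻ p, κ p) := by
  rw [Measure.volume_eq_prod, lintegral_prod _ hκ.aemeasurable]
  refine le_trans ?_ (mul_le_mul_right (aff hκ.lintegral_prod_right' hc d) _)
  rw [← lintegral_const_mul' _ _ ENNReal.ofReal_ne_top]
  exact setLIntegral_mono' measurableSet_Icc fun s a1 =>
    (segV hv h (hs s a1).1 (hs s a1).2.2).trans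
      (mul_le_mul_left (ENNReal.ofReal_le_ofReal (hs s a1).2.1) _)

lemma NH {a b : ℝ → ℝ} {c d L : ℝ} (hc : c ≠ 0)
    (hs : ∀ s ∈ Icc (0 : ℝ) 1, a s ≤ b s ∧ b s - a s ≤ L ∧ ∀ y ∈ Icc (a s) (b s),
      (y, d + c * s) ∈ Ar η t) :
    N (fun s => v (b s, d + c * s)) (fun s => v (a s, d + c * s)) ≤
      ENNReal.ofReal L * (ENNReal.ofReal |c⁻¹| * ∫⁻ p, κ p) := by
  rw [Measure.volume_eq_prod, lintegral_prod_symm _ hκ.aemeasurable]
  refine le_trans ?_ (mul_le_mul_right (aff hκ.lintegral_prod_left' hc d) _)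
  rw [← lintegral_const_mul' _ _ ENNReal.ofReal_ne_top]
  exact setLIntegral_mono' measurableSet_Icc fun s a1 =>
    (segH hv h (hs s a1).1 (hs s a1).2.2).trans
      (mul_le_mul_left (ENNReal.ofReal_le_ofReal (hs s a1).2.1) _)

lemma NV1 (η0 : 0 < η) (t0 : 0 < t) {a b : ℝ → ℝ} {L e : ℝ} (he : e = 1 ∨ e = -1)
    (hs : ∀ s ∈ Icc (0 : ℝ) 1, t ≤ a s ∧ a s ≤ b s ∧ b s ≤ η ∧ b s ≤ L) :
    N (fun s => v (s, e * b s)) (fun s => v (s, e * a s)) ≤ ENNReal.ofReal L * ∫⁻ p, κ p := by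
  rcases he with rfl | rfl
  · simpa using NV hv hκ h (a := a) (b := b) (c := 1) (d := 0) (L := L) one_ne_zero fun s a1 => by
      obtain ⟨b1, b2, b3, b4⟩ := hs s a1
      exact ⟨b2, by linarith, fun y hy => ⟨⟨⟨by linarith [a1.1], by linarith [a1.2]⟩,
        by linarith [hy.1], by linarith [hy.2]⟩, .inr (le_abs.2 (.inl (by linarith [hy.1])))⟩⟩
  · rw [N_symm]
    simpa using NV hv hκ h (a := fun s => -b s) (b := fun s => -a s) (c := 1) (d := 0) (L := L)
      one_ne_zero fun s a1 => by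
      obtain ⟨b1, b2, b3, b4⟩ := hs s a1
      exact ⟨by linarith, by linarith, fun y hy => ⟨⟨⟨by linarith [a1.1], by linarith [a1.2]⟩,
        by linarith [hy.1], by linarith [hy.2]⟩, .inr (le_abs.2 (.inr (by linarith [hy.2])))⟩⟩

lemma NJ (η0 : 0 < η) (η1 : η ≤ 1) (t0 : 0 < t) (t1 : t ≤ η / 2) :
    N (fun s => v (s, 1 * t)) (fun s => v (s, -1 * t)) ≤
      (100 + 100 * ENNReal.ofReal (2 / η)) * ∫⁻ p, κ p := by
  have c := hv.continuous
  have m : ∀ s ∈ Icc (0 : ℝ) 1, 0 ≤ η / 2 * s ∧ η / 2 * s ≤ η / 2 := fun s a =>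
    ⟨mul_nonneg (by positivity) a.1, mul_le_of_le_one_right (by positivity) a.2⟩
  have k1 : ∀ e : ℝ, e = 1 ∨ e = -1 → N (fun s => v (s, e * (η / 2 + η / 2 * s)))
      (fun s => v (s, e * t)) ≤ ENNReal.ofReal 1 * ∫⁻ p, κ p := fun e he =>
    NV1 hv hκ h η0 t0 (a := fun _ => t) he fun s a =>
      ⟨le_rfl, by linarith [m s a], by linarith [m s a], by linarith [m s a]⟩
  have e1 : |(η / 2)⁻¹| = 2 / η := by rw [inv_div, abs_of_pos (by positivity)]
  have e2 : |(-(η / 2))⁻¹| = 2 / η := by rw [inv_neg, abs_neg, e1]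
  have k2 := NH hv hκ h (a := fun s => -(η / 2) + -(η / 2) * s) (b := fun s => s) (c := η / 2)
    (d := η / 2) (L := 2) (by positivity) fun s a => by
      obtain ⟨b1, b2⟩ := m s a
      exact ⟨by linarith [a.1], by linarith [a.2], fun y hy => ⟨⟨⟨by linarith [hy.1],
        by linarith [hy.2, a.2]⟩, by linarith, by linarith⟩, .inr (le_abs.2 (.inl (by linarith)))⟩⟩
  have k4 := NH hv hκ h (a := fun s => -(η / 2) + -(η / 2) * s) (b := fun s => s) (c := -(η / 2))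
    (d := -(η / 2)) (L := 2) (by simpa using η0.ne') fun s a => by
      obtain ⟨b1, b2⟩ := m s a
      exact ⟨by linarith [a.1], by linarith [a.2], fun y hy => ⟨⟨⟨by linarith [hy.1],
        by linarith [hy.2, a.2]⟩, by linarith, by linarith⟩, .inr (le_abs.2 (.inr (by linarith)))⟩⟩
  have k3 := NV hv hκ h (a := fun s => -(η / 2) + -(η / 2) * s) (b := fun s => η / 2 + η / 2 * s)
    (c := -(η / 2)) (d := -(η / 2)) (L := 2) (by simpa using η0.ne') fun s a => by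
      obtain ⟨b1, b2⟩ := m s a
      exact ⟨by linarith, by linarith, fun y hy => ⟨⟨⟨by linarith, by linarith⟩,
        by linarith [hy.1], by linarith [hy.2]⟩, .inl (by linarith)⟩⟩
  have k5 := k1 (-1) (.inr rfl)
  have k0 := k1 1 (.inl rfl)
  rw [e1] at k2
  rw [e2] at k3 k4
  rw [N_symm] at k0 k4
  simp only [one_mul, ENNReal.ofReal_one, ENNReal.ofReal_ofNat] at k0 k2 k3 k4 k5 ⊢
  simp only [show ∀ s, -1 * (η / 2 + η / 2 * s) = -(η / 2) + -(η / 2) * s from fun s => by ring]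
    at k5
  have ms : ∀ {f : ℝ → ℂ}, Continuous f → Ms f := fun hf => hf.aemeasurable
  refine (N_tri _ (ms (by fun_prop)) (ms (by fun_prop))).trans ((add_le_add (mul_le_mul_right k0 2)
    (mul_le_mul_right ((N_tri _ (ms (by fun_prop)) (ms (by fun_prop))).trans (add_le_add
      (mul_le_mul_right k2 2) (mul_le_mul_right ((N_tri _ (ms (by fun_prop))
      (ms (by fun_prop))).trans (add_le_add (mul_le_mul_right k3 2) (mul_le_mul_right
      ((N_tri _ (ms (by fun_prop)) (ms (by fun_prop))).trans (add_le_add (mul_le_mul_right k4 2)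
      (mul_le_mul_right k5 2))) 2))) 2))) 2)).trans ?_)
  generalize ∫⁻ p, κ p = D
  generalize ENNReal.ofReal (2 / η) = c
  calc _ = 18 * D + 56 * (c * D) := by ring
    _ ≤ 100 * D + 100 * (c * D) := by gcongr <;> norm_num
    _ = _ := by ring

end

lemma est {γ : ℝ → ℂ} (hγ : ContDiff ℝ 2 γ) (hi : InjOn γ (Icc 0 1))
    (hd : ∀ s ∈ Icc (0 : ℝ) 1, deriv γ s ≠ 0) : ∃ η : ℝ, 0 < η ∧ ∃ K : ℝ≥0,
    ∀ u g k, H1 (γ '' Icc 0 1)ᶜ u g k → ∃ S : Set ℝ, (∀ᵐ t, t ∈ S) ∧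
      (∀ e : ℝ, e = 1 ∨ e = -1 → ∀ a ∈ S, ∀ b ∈ S, 0 < a → a ≤ b → b ≤ η →
        N (fun s => u (nor γ (s, e * b))) (fun s => u (nor γ (s, e * a))) ≤ ENNReal.ofReal b *
          (K * ∫⁻ x in (γ '' Icc 0 1)ᶜ, (‖g x‖ₑ ^ 2 + ‖k x‖ₑ ^ 2))) ∧
      (∀ t ∈ S, 0 < t → t ≤ η / 2 →
        N (fun s => u (nor γ (s, 1 * t))) (fun s => u (nor γ (s, -1 * t))) ≤
          K * ∫⁻ x in (γ '' Icc 0 1)ᶜ, (‖g x‖ₑ ^ 2 + ‖k x‖ₑ ^ 2)) ∧
      ∀ e : ℝ, e = 1 ∨ e = -1 →
        ∫⁻ s in Icc (0 : ℝ) 1, ∫⁻ t in Ioc 0 η, ‖u (nor γ (s, e * t))‖ₑ ^ 2 < ∞ := by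
  obtain ⟨η, η0, η1, C, M, hC, hΛ, hM⟩ := chart hγ hi hd
  have cn := nor_cd hγ
  have cc := cn.continuous
  refine ⟨η, η0, (100 + 100 * (2 / η).toNNReal) * (M ^ 2 * (C * 2)), fun u g k H => ?_⟩
  set O := (γ '' Icc 0 1)ᶜ
  have hO : IsOpen O := (isCompact_Icc.image hγ.continuous).isClosed.isOpen_compl
  obtain ⟨w, h, w1, w2, h1, h2, h3⟩ := approx hO H
  set E := ∫⁻ x in O, (‖g x‖ₑ ^ 2 + ‖k x‖ₑ ^ 2)
  have mR : MeasurableSet (Rc η) := measurableSet_Icc.prod measurableSet_Icc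
  let κ : ℕ → ℝ × ℝ → ℝ≥0∞ := fun n => (Rc η).indicator fun p => M ^ 2 * h n (nor γ p) ^ 2
  have mκ : ∀ n, Measurable (κ n) := fun n =>
    ((((h1 n).comp cc.measurable).pow_const 2).const_mul _).indicator mR
  have hκ : ∀ n, ∫⁻ p, κ n p ≤ M ^ 2 * (C * (2 * E)) := fun n => by
    rw [lintegral_indicator mR, lintegral_const_mul' _ _ (by simp)]
    exact mul_le_mul_right ((hC fun x => h n x ^ 2).trans (mul_le_mul_right (h2 n) _)) _
  have hA : ∀ t > 0, ∀ᶠ n in atTop, ∀ p ∈ Ar η t, ‖fderiv ℝ (w n ∘ nor γ) p‖ₑ ^ 2 ≤ κ n p := by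
    intro t t0
    have cA : IsCompact (Ar η t) := (isCompact_Icc.prod isCompact_Icc).inter_right
      ((isClosed_le continuous_fst continuous_const).union
        (isClosed_le continuous_const continuous_snd.abs))
    obtain ⟨δ, δ0, hδ⟩ := (cA.image cc).exists_cthickening_subset_open hO (by
      rintro _ ⟨p, hp, rfl⟩ c
      obtain ⟨a1, a2⟩ := hΛ p hp.1 c
      rcases hp.2 with b | b
      · linarith
      · rw [a1, abs_zero] at b; linarith)
    filter_upwards [tendsto_one_div_add_atTop_nhds_zero_nat.eventually_le_const δ0] with n hn p hp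
    rw [fderiv_comp _ ((w1 n).differentiable one_ne_zero _) (cn.differentiable one_ne_zero _)]
    simp only [κ, indicator_of_mem hp.1, ← mul_pow]
    refine pow_le_pow_left' ((ContinuousLinearMap.opENorm_comp_le _ _).trans ?_) 2
    rw [mul_comm]
    exact mul_le_mul' (hM p hp.1) (h3 n _ (((closedBall_subset_closedBall hn).trans
      (closedBall_subset_cthickening (mem_image_of_mem _ hp) δ)).trans hδ))
  have q1 : ∀ᵐ p, p ∈ Rc η → Tendsto (fun n => w n (nor γ p)) atTop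
      (𝓝 (O.indicator u (nor γ p))) := by
    obtain ⟨Z, z1, z2, z3⟩ := exists_measurable_superset_of_null (ae_iff.1 w2)
    have := hC (Z.indicator 1)
    rw [lintegral_indicator_one z2, z3, mul_zero, nonpos_iff_eq_zero, lintegral_eq_zero_iff
      (f := fun p => Z.indicator 1 (nor γ p))
      ((measurable_one.indicator z2).comp cc.measurable), EventuallyEq, ae_restrict_iff' mR] at this
    filter_upwards [this] with p hp a
    by_contra c
    simpa [indicator_of_mem (z1 c)] using hp a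
  have q0 : ∀ s ∈ Icc (0 : ℝ) 1, ∀ t, |t| ≤ η → (s, t) ∈ Rc η := fun s a t b =>
    ⟨⟨by linarith [a.1], by linarith [a.2]⟩, abs_le.1 b⟩
  have q2 : ∀ᵐ t, t ≠ 0 → |t| ≤ η → ∀ᵐ s ∂volume.restrict (Icc (0 : ℝ) 1),
      Tendsto (fun n => w n (nor γ (s, t))) atTop (𝓝 (u (nor γ (s, t)))) := by
    rw [Measure.volume_eq_prod] at q1
    filter_upwards [Measure.ae_ae_of_ae_prod
      (Measure.measurePreserving_swap.quasiMeasurePreserving.ae q1)] with t a t0 t1
    rw [ae_restrict_iff' measurableSet_Icc]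
    filter_upwards [a] with s b hs
    have := b (q0 s hs t t1)
    rwa [Prod.swap, indicator_of_mem (s := O) fun c => t0 (hΛ _ (q0 s hs t t1) c).1] at this
  have q3 := (Measure.measurePreserving_neg (volume : Measure ℝ)).quasiMeasurePreserving.ae q2
  have ms : ∀ n t, Ms fun s => w n (nor γ (s, t)) := fun n t =>
    Continuous.aemeasurable (by have := (w1 n).continuous; fun_prop)
  let S := {t : ℝ | ∀ e : ℝ, e = 1 ∨ e = -1 → 0 < t → t ≤ η →
    ∀ᵐ s ∂volume.restrict (Icc (0 : ℝ) 1),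
      Tendsto (fun n => w n (nor γ (s, e * t))) atTop (𝓝 (u (nor γ (s, e * t))))}
  refine ⟨S, ?_, fun e he a ha b hb a0 ab b1 => ?_, fun t ht t0 t1 => ?_, fun e he => ?_⟩
  · filter_upwards [q2, q3] with t a b e he t0 t1
    rcases he with rfl | rfl
    · simpa using a t0.ne' (by rwa [abs_of_pos t0])
    · simpa using b (by simpa using t0.ne') (by rwa [abs_neg, abs_of_pos t0])
  · refine N_fatou (fun n => ms n _) (fun n => ms n _) (hb e he (by linarith) b1)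
      (ha e he a0 (by linarith)) ?_
    filter_upwards [hA a a0] with n hn
    refine (NV1 ((w1 n).comp cn) (mκ n) hn η0 a0 (a := fun _ => a) (b := fun _ => b) (L := b) he
      fun s _ => ⟨le_rfl, ab, b1, le_rfl⟩).trans (mul_le_mul_right ((hκ n).trans ?_) _)
    push_cast
    rw [mul_assoc, mul_assoc, mul_assoc]
    exact le_mul_of_one_le_left' (le_add_right (by norm_num))
  · refine N_fatou (fun n => ms n _) (fun n => ms n _) (ht 1 (.inl rfl) t0 (by linarith))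
      (ht (-1) (.inr rfl) t0 (by linarith)) ?_
    filter_upwards [hA t t0] with n hn
    refine (NJ ((w1 n).comp cn) (mκ n) hn η0 η1 t0 t1).trans
      ((mul_le_mul_right (hκ n) _).trans (le_of_eq ?_))
    push_cast
    rw [mul_assoc, mul_assoc, mul_assoc]
    rfl
  · have mu : Measurable fun x => ‖O.indicator u x‖ₑ ^ 2 :=
      (H.1.indicator hO.measurableSet).enorm.pow_const 2
    have f1 : ∫⁻ x, ‖O.indicator u x‖ₑ ^ 2 < ∞ := by
      simpa using lintegral_rpow_enorm_lt_top_of_eLpNorm_lt_top (by norm_num) (by norm_num)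
        ((memLp_indicator_iff_restrict hO.measurableSet).2 H.2.2.2.1).2
    have f2 := (hC fun x => ‖O.indicator u x‖ₑ ^ 2).trans_lt
      (ENNReal.mul_lt_top ENNReal.coe_lt_top f1)
    have m2 : Measurable ((Rc η).indicator fun p => ‖O.indicator u (nor γ p)‖ₑ ^ 2) :=
      (mu.comp cc.measurable).indicator mR
    rw [← lintegral_indicator mR, Measure.volume_eq_prod, lintegral_prod _ m2.aemeasurable] at f2
    refine lt_of_le_of_lt ?_ f2
    refine le_trans (setLIntegral_mono' measurableSet_Icc fun s hs => ?_)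
      (setLIntegral_le_lintegral _ _)
    have e1 : ∫⁻ t, (Rc η).indicator (fun p => ‖O.indicator u (nor γ p)‖ₑ ^ 2) (s, e * t) =
        ∫⁻ t, (Rc η).indicator (fun p => ‖O.indicator u (nor γ p)‖ₑ ^ 2) (s, t) := by
      rcases he with rfl | rfl
      · simp only [one_mul]
      · simp only [neg_one_mul]
        exact lintegral_neg_eq_self fun t =>
          (Rc η).indicator (fun p => ‖O.indicator u (nor γ p)‖ₑ ^ 2) (s, t)
    rw [← e1]
    refine le_trans (setLIntegral_mono' measurableSet_Ioc fun t ht => ?_)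
      (setLIntegral_le_lintegral _ _)
    have e2 : |e * t| = t := by rcases he with rfl | rfl <;> simp [abs_of_pos ht.1]
    have e3 := q0 s hs (e * t) (e2.le.trans ht.2)
    rw [indicator_of_mem e3, indicator_of_mem (s := O) (a := nor γ (s, e * t)) fun c => ht.1.ne' (by
      rw [← e2, show e * t = 0 from (hΛ _ e3 c).1, abs_zero])]

end Pool.Agent.H.MP_178ab7_mp
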