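import Pool.Agent.H.MP_178ab7_mp.B

set_option autoImplicit false
set_option maxHeartbeats 400000

namespace Pool.Agent.H.MP_178ab7_mp

open MeasureTheory Set Filter Topology Metric
open scoped ENNReal NNReal

lemma eL (f g : ℝ → ℂ) : eLpNorm (f - g) 2 (volume.restrict (Icc (0 : ℝ) 1)) = N f g ^ (1 / 2 : ℝ) := by
  rw [eLpNorm_eq_lintegral_rpow_enorm_toReal (by norm_num) (by norm_num)]
  simp [N]

lemma mem2 {f : ℝ → ℂ} (hf : Ms f) (h : ∫⁻ s in Icc (0 : ℝ) 1, ‖f s‖ₑ ^ 2 < ∞) :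
    MemLp f 2 (volume.restrict (Icc (0 : ℝ) 1)) :=
  ⟨hf.aestronglyMeasurable, (eLpNorm_lt_top_iff_lintegral_rpow_enorm_lt_top (by norm_num)
    (by norm_num)).2 (by simpa using h)⟩

lemma avg_ms {F : ℝ × ℝ → ℂ} (hF : Measurable F) (ε : ℝ) :
    Ms fun s => ε⁻¹ • ∫ t in Ioc 0 ε, F (s, t) :=
  ((hF.stronglyMeasurable.integral_prod_right' (ν := volume.restrict (Ioc 0 ε))).measurable.const_smul
    ε⁻¹).aemeasurable

lemma trace {F : ℝ × ℝ → ℂ} (hF : Measurable F) {η : ℝ} (η0 : 0 < η) {S : Set ℝ} (hS : ∀ᵐ t, t ∈ S)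
    {B : ℝ≥0∞} (hB : B ≠ ∞) (ha : ∀ a ∈ S, ∀ b ∈ S, 0 < a → a ≤ b → b ≤ η →
      N (fun s => F (s, b)) (fun s => F (s, a)) ≤ ENNReal.ofReal b * B)
    (hf : ∫⁻ s in Icc (0 : ℝ) 1, ∫⁻ t in Ioc 0 η, ‖F (s, t)‖ₑ ^ 2 < ∞) :
    ∃ T : ℝ → ℂ, MemLp T 2 (volume.restrict (Icc (0 : ℝ) 1)) ∧
      (∀ a ∈ S, 0 < a → a ≤ η → N (fun s => F (s, a)) T ≤ ENNReal.ofReal a * B) ∧
      Tendsto (fun ε : ℝ => N (fun s => ε⁻¹ • ∫ t in Ioc 0 ε, F (s, t)) T) (𝓝[>] 0) (𝓝 0) := by
  have ms : ∀ t, Ms fun s => F (s, t) := fun t => Measurable.aemeasurable (by fun_prop)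
  have f1 := ae_lt_top (by fun_prop) hf.ne
  rw [lintegral_lintegral_swap (Measurable.aemeasurable (by fun_prop))] at hf
  have f2 := (ae_restrict_iff' measurableSet_Ioc).1 (ae_lt_top (by fun_prop) hf.ne)
  have r0 : ∀ j : ℕ, 0 < η / ((j : ℝ) + 1) := fun j => by positivity
  have r1 : ∀ j : ℕ, η / ((j : ℝ) + 1) ≤ η := fun j =>
    div_le_self η0.le (by linarith [j.cast_nonneg (α := ℝ)])
  have r2 : Tendsto (fun j : ℕ => η / ((j : ℝ) + 1)) atTop (𝓝 0) := by
    simpa [div_eq_mul_inv] using tendsto_one_div_add_atTop_nhds_zero_nat.const_mul η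
  choose t t1 t2 t3 using fun j : ℕ => Measure.exists_mem_of_measure_ne_zero_of_ae
    (μ := volume) (s := Ioc 0 (η / ((j : ℝ) + 1))) (by simpa using r0 j)
    (ae_restrict_of_ae (hS.and f2))
  have m := fun j => mem2 (ms (t j)) (t3 j ⟨(t1 j).1, (t1 j).2.trans (r1 j)⟩)
  have hb : ∀ {a b c : ℝ}, a ∈ S → b ∈ S → 0 < a → 0 < b → a ≤ c → b ≤ c → c ≤ η →
      N (fun s => F (s, a)) (fun s => F (s, b)) ≤ ENNReal.ofReal c * B := by
    intro a b c a1 b1 a2 b2 a3 b3 c1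
    rcases le_total a b with h | h
    · rw [N_symm]
      exact (ha a a1 b b1 a2 h (b3.trans c1)).trans
        (mul_le_mul_left (ENNReal.ofReal_le_ofReal b3) _)
    · exact (ha b b1 a a1 b2 h (a3.trans c1)).trans
        (mul_le_mul_left (ENNReal.ofReal_le_ofReal a3) _)
  have tz : ∀ {l : Filter ℝ} {ι : Type} {L : Filter ι} {x : ι → ℝ}, Tendsto x L (𝓝 0) →
      Tendsto (fun i => ENNReal.ofReal (x i) * B) L (𝓝 0) := fun h => by
    simpa using ENNReal.Tendsto.mul_const (ENNReal.tendsto_ofReal h) (.inr hB)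
  have cau : CauchySeq fun j => (m j).toLp := by
    refine cauchySeq_of_le_tendsto_0
      (fun j : ℕ => ((ENNReal.ofReal (η / ((j : ℝ) + 1)) * B) ^ (1 / 2 : ℝ)).toReal)
      (fun i j n hi hj => ?_) ?_
    · rw [dist_edist, Lp.edist_toLp_toLp, eL]
      have k : ∀ i, n ≤ i → t i ≤ η / ((n : ℝ) + 1) := fun i hi => (t1 i).2.trans (by gcongr)
      exact ENNReal.toReal_mono (ENNReal.rpow_ne_top_of_nonneg (by norm_num)
        (ENNReal.mul_ne_top ENNReal.ofReal_ne_top hB)) (ENNReal.rpow_le_rpow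
        (hb (t2 i) (t2 j) (t1 i).1 (t1 j).1 (k i hi) (k j hj) (r1 n)) (by norm_num))
    · have := ((ENNReal.continuous_rpow_const (y := 1 / 2)).tendsto 0).comp (tz (l := ⊤) r2)
      rw [ENNReal.zero_rpow_of_pos (by norm_num)] at this
      exact (ENNReal.tendsto_toReal ENNReal.zero_ne_top).comp this
  obtain ⟨T, hT⟩ := cauchySeq_tendsto_of_complete cau
  obtain ⟨ns, n1, n2⟩ := (tendstoInMeasure_of_tendsto_Lp hT).exists_seq_tendsto_ae
  have k1 : ∀ a ∈ S, 0 < a → a ≤ η → N (fun s => F (s, a)) T ≤ ENNReal.ofReal a * B := by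
    intro a a1 a2 a3
    refine N_fatou (f := fun _ s => F (s, a)) (g := fun j s => F (s, t (ns j))) (fun _ => ms _)
      (fun _ => ms _) (.of_forall fun _ => tendsto_const_nhds) ?_ ?_
    · filter_upwards [n2, ae_all_iff.2 fun j => (m j).coeFn_toLp] with s b c
      simpa only [c] using b
    · filter_upwards [(r2.comp n1.tendsto_atTop).eventually_le_const a2] with j hj
      exact hb a1 (t2 _) a2 (t1 _).1 le_rfl ((t1 _).2.trans hj) a3
  refine ⟨T, Lp.memLp T, k1, tendsto_of_tendsto_of_tendsto_of_le_of_le' tendsto_const_nhds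
    (tz (l := ⊤) (x := fun ε => ε) nhdsWithin_le_nhds) (.of_forall fun _ => zero_le) ?_⟩
  filter_upwards [Ioc_mem_nhdsGT η0] with ε ⟨e0, e1⟩
  have mT : Measurable T := (Lp.stronglyMeasurable T).measurable
  have k2 : ∀ᵐ s ∂volume.restrict (Icc (0 : ℝ) 1), ‖ε⁻¹ • (∫ t in Ioc 0 ε, F (s, t)) - T s‖ₑ ^ 2 ≤
      ENNReal.ofReal ε⁻¹ * ∫⁻ t in Ioc 0 ε, ‖F (s, t) - T s‖ₑ ^ 2 := by
    filter_upwards [f1] with s hs
    have i1 : IntegrableOn (fun t => F (s, t)) (Ioc 0 ε) := by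
      refine MemLp.integrable (q := 2) (by norm_num) ⟨Measurable.aestronglyMeasurable (by fun_prop),
        (eLpNorm_lt_top_iff_lintegral_rpow_enorm_lt_top (by norm_num) (by norm_num)).2 ?_⟩
      simpa using (lintegral_mono_set (Ioc_subset_Ioc_right e1)).trans_lt hs
    have e : ε⁻¹ • (∫ t in Ioc 0 ε, F (s, t)) - T s = ε⁻¹ • ∫ t in Ioc 0 ε, (F (s, t) - T s) := by
      rw [integral_sub i1 (by simp), smul_sub, setIntegral_const, smul_smul]
      simp [e0.le, e0.ne']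
    rw [e, enorm_smul, mul_pow, Real.enorm_eq_ofReal (inv_pos.2 e0).le, sq (ENNReal.ofReal _),
      mul_assoc]
    refine mul_le_mul_right ((mul_le_mul_right ((pow_le_pow_left'
      (enorm_integral_le_lintegral_enorm _) 2).trans
      (jen (Measurable.aemeasurable (by fun_prop)))) _).trans (le_of_eq ?_)) _
    rw [← mul_assoc, ← ENNReal.ofReal_mul (inv_pos.2 e0).le, sub_zero, inv_mul_cancel₀ e0.ne']
    simp
  refine (lintegral_mono_ae k2).trans ?_
  rw [lintegral_const_mul' _ _ ENNReal.ofReal_ne_top,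
    lintegral_lintegral_swap (Measurable.aemeasurable (by fun_prop))]
  refine (mul_le_mul_right (lintegral_mono_ae (g := fun _ => ENNReal.ofReal ε * B) ?_) _).trans
    (le_of_eq ?_)
  · rw [ae_restrict_iff' measurableSet_Ioc]
    filter_upwards [hS] with a a1 a2
    exact (k1 a a1 a2.1 (a2.2.trans e1)).trans (mul_le_mul_left (ENNReal.ofReal_le_ofReal a2.2) _)
  · rw [setLIntegral_const, Real.volume_Ioc, mul_comm _ (ENNReal.ofReal (ε - 0)), ← mul_assoc,
      ← ENNReal.ofReal_mul (inv_pos.2 e0).le, sub_zero, inv_mul_cancel₀ e0.ne']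
    simp

lemma uniq {γ : ℝ → ℂ} (hγ : ContDiff ℝ 2 γ) {e : ℝ} {u T T' : _} (hu : Measurable u)
    (h : IsTrace γ e u T) (h' : IsTrace γ e u T') : T =ᵐ[volume.restrict (Icc (0 : ℝ) 1)] T' := by
  have c := (nor_cd hγ).continuous
  have k : N T T' ≤ 2 * 0 + 2 * 0 := by
    refine ge_of_tendsto' ((ENNReal.Tendsto.const_mul h.2 (.inr (by simp))).add
      (ENNReal.Tendsto.const_mul h'.2 (.inr (by simp)))) fun ε => ?_
    have := N_tri T' h.1.aemeasurable (avg_ms (F := fun p => u (nor γ (p.1, e * p.2)))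
      (hu.comp (Continuous.measurable (by fun_prop))) ε)
    exact this.trans (add_le_add (mul_le_mul_right (N_symm _ _).le 2) le_rfl)
  have a := h.1.aemeasurable
  have b := h'.1.aemeasurable
  simp only [mul_zero, add_zero, nonpos_iff_eq_zero, N] at k
  rw [lintegral_eq_zero_iff' (by fun_prop)] at k
  filter_upwards [k] with s hs
  simpa [sub_eq_zero] using hs

end Pool.Agent.H.MP_178ab7_mp
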