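import Mathlib

set_option autoImplicit false

namespace Pool.Agent.H.MP_178ab7_mp

open MeasureTheory Set Filter Topology
open scoped ContDiff

/-- g is the weak derivative of u in the direction v on the open set O of the plane. -/
def WD (O : Set ℂ) (u g : ℂ → ℂ) (v : ℂ) : Prop :=
  ∀ φ : ℂ → ℝ, ContDiff ℝ ∞ φ → HasCompactSupport φ → tsupport φ ⊆ O →
    ∫ x in O, fderiv ℝ φ x v • u x = -∫ x in O, φ x • g x

/-- u lies in the Sobolev space H1(O), with weak first derivatives g and k in the two coordinate directions. -/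
def H1 (O : Set ℂ) (u g k : ℂ → ℂ) : Prop :=
  Measurable u ∧ Measurable g ∧ Measurable k ∧ MemLp u 2 (volume.restrict O) ∧
    MemLp g 2 (volume.restrict O) ∧ MemLp k 2 (volume.restrict O) ∧
    WD O u g 1 ∧ WD O u k Complex.I

/-- The point at parameter t on the normal line of the curve at the point with parameter s. -/
noncomputable def nor (γ : ℝ → ℂ) (p : ℝ × ℝ) : ℂ := γ p.1 + p.2 * Complex.I * deriv γ p.1

/-- T is the trace of u on the side e (1 or -1) of the arc: the L2 limit of the means of u over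
short one-sided normal segments. -/
def IsTrace (γ : ℝ → ℂ) (e : ℝ) (u : ℂ → ℂ) (T : ℝ → ℂ) : Prop :=
  MemLp T 2 (volume.restrict (Icc 0 1)) ∧
    Tendsto (fun ε : ℝ => ∫⁻ s in Icc (0 : ℝ) 1,
      ‖ε⁻¹ • (∫ t in Ioc 0 ε, u (nor γ (s, e * t))) - T s‖ₑ ^ 2) (𝓝[>] 0) (𝓝 0)

end Pool.Agent.H.MP_178ab7_mp
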